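import Pool.Agent.X14.LG7

/-!
# Sign and integrality of the normalised partial sums of the series with `(51k+7)` and ratio `-1728`
-/

set_option autoImplicit false

namespace Pool.Agent.Results.MP_681c11_nt.SignIntegrality

open Finset

/-- `a n = (1 / (n (2n+1) C(2n,n))) Σ_{k<n} (-1728)^(n-1-k) (51k+7) C(2k,k)^2 C(3k,k)`. -/
def a (n : ℕ) : ℚ :=
  1 / ((n : ℚ) * (2 * n + 1) * ((2 * n).choose n : ℚ)) *
    ∑ k ∈ range n, (-1728) ^ (n - 1 - k) * (51 * (k : ℚ) + 7) * ((2 * k).choose k : ℚ) ^ 2 * ((3 * k).choose k : ℚ)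

/-- For every `n ≥ 2`: if `2n+1` is not a power of `3` then `(-1)^(n-1) a n` is a positive integer; if
`2n+1` is a power of `3` then `3 a n` is an integer that is not divisible by `3`. -/
theorem result (n : ℕ) (hn : 2 ≤ n) :
    ((¬ ∃ m : ℕ, 2 * n + 1 = 3 ^ m) → ∃ z : ℤ, 0 < z ∧ (-1) ^ (n - 1) * a n = z) ∧
    ((∃ m : ℕ, 2 * n + 1 = 3 ^ m) → ∃ z : ℤ, 3 * a n = z ∧ ¬ (3 : ℤ) ∣ z) := by
  obtain ⟨r, rfl⟩ : ∃ r, n = r + 1 := ⟨n - 1, by omega⟩
  have e : a (r + 1) = Pool.Agent.X14.LG.a51 (r + 1) := by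
    unfold a Pool.Agent.X14.LG.a51
    rw [div_mul_eq_mul_div, one_mul]
    congr 1
    apply sum_congr rfl
    intro k _
    ring
  have e2 : 2 * (r + 1) + 1 = 2 * r + 3 := by ring
  rw [e, e2, Nat.add_sub_cancel]
  refine ⟨fun h => ?_, fun h => Pool.Agent.X14.LG.a51_special r (by omega) h⟩
  obtain ⟨z, hz⟩ := Pool.Agent.X14.LG.a51_int r (by omega) h
  have hs := Pool.Agent.X14.LG.a51_sign r
  refine ⟨(-1) ^ r * z, ?_, ?_⟩
  · rw [hz] at hs
    exact_mod_cast hs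
  · rw [hz]; push_cast; rfl

end Pool.Agent.Results.MP_681c11_nt.SignIntegrality
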